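import Pool.Agent.H31.ST.Targets

/-! Module LAG of MP_0b97f5_mp (helper34) -/

open Set Filter Topology Polynomial

noncomputable section

namespace H34LagAux

lemma eq_prod_of_roots {q : ℕ} {f : ℝ[X]} (hf : f.Monic) (hq : f.natDegree = q) (h1 : 1 ≤ q)
    {v : Fin q → ℝ} (hv : Function.Injective v) (h0 : ∀ i, f.eval (v i) = 0) :
    f = ∏ i, (X - C (v i)) := by
  classical
  have hg : (∏ i, (X - C (v i)) : ℝ[X]).Monic := monic_prod_of_monic _ _ fun i _ => monic_X_sub_C _
  have hgd : (∏ i, (X - C (v i)) : ℝ[X]).degree = q := by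
    rw [degree_prod]; simp
  have hfd : f.degree = q := by rw [degree_eq_natDegree hf.ne_zero, hq]
  refine Polynomial.eq_of_degree_sub_lt_of_eval_index_eq (s := Finset.univ) (v := v)
    hv.injOn ?_ ?_
  · have h := degree_sub_lt_left (p := f) (q := ∏ i, (X - C (v i))) (by rw [hfd, hgd]) hf.ne_zero
      (by rw [hf.leadingCoeff, hg.leadingCoeff])
    rw [hfd] at h
    simpa using h
  · intro i _
    rw [h0 i, eval_prod]
    symm
    exact Finset.prod_eq_zero (Finset.mem_univ i) (by simp)

lemma laguerre_prod {ι : Type*} [DecidableEq ι] (s : Finset ι) (v : ι → ℝ) (x : ℝ) :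
    0 ≤ ((∏ i ∈ s, (X - C (v i)) : ℝ[X]).derivative.eval x) ^ 2 -
      (∏ i ∈ s, (X - C (v i)) : ℝ[X]).eval x *
        (∏ i ∈ s, (X - C (v i)) : ℝ[X]).derivative.derivative.eval x := by
  induction s using Finset.induction_on with
  | empty => simp
  | insert a s ha ih =>
    rw [Finset.prod_insert ha]
    set g := (∏ i ∈ s, (X - C (v i)) : ℝ[X]) with hg
    have h1 : derivative ((X - C (v a)) * g) = g + (X - C (v a)) * derivative g := by
      rw [derivative_mul]; simp
    have h2 : derivative (g + (X - C (v a)) * derivative g) =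
        2 * derivative g + (X - C (v a)) * derivative (derivative g) := by
      rw [derivative_add, derivative_mul]; simp; ring
    rw [h1, h2]
    simp only [eval_add, eval_mul, eval_sub, eval_X, eval_C, eval_ofNat]
    nlinarith [sq_nonneg (g.eval x), mul_nonneg (sq_nonneg (x - v a)) ih]

lemma ivt {f : ℝ → ℝ} (hf : Continuous f) {a b : ℝ} (hab : a < b) (h : f a * f b < 0) :
    ∃ x ∈ Ioo a b, f x = 0 := by
  rcases mul_neg_iff.1 h with ⟨h1, h2⟩ | ⟨h1, h2⟩
  · have := intermediate_value_Ioo' hab.le hf.continuousOn (f := f)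
    obtain ⟨x, hx, hx0⟩ := this ⟨h2, h1⟩
    exact ⟨x, hx, hx0⟩
  · have := intermediate_value_Ioo hab.le hf.continuousOn (f := f)
    obtain ⟨x, hx, hx0⟩ := this ⟨h1, h2⟩
    exact ⟨x, hx, hx0⟩

theorem lag_core (ρ : ℝ) (p : ℝ[X]) (q : ℕ) (hq : p.natDegree = q) (hρ : 0 < ρ)
    (hmon : p.Monic) (hdeg : 1 ≤ q) (r : Fin q → ℝ) (hr : StrictMono r)
    (hr0 : ∀ i, p.eval (r i) = 0)
    (hpk : ∀ s t : ℝ, s < t → p.eval s = 0 → p.eval t = 0 → ∃ E ∈ Ioo s t, ρ ≤ |p.eval E|) :
    ∀ E : ℝ, |p.eval E| < ρ → p.derivative.eval E ≠ 0 ∧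
      |p.derivative.derivative.eval E| * (ρ - |p.eval E|) ≤ (p.derivative.eval E) ^ 2 := by
  classical
  have hp : p = ∏ i, (X - C (r i)) := eq_prod_of_roots hmon hq hdeg hr.injective hr0
  have hev : ∀ x, p.eval x = ∏ i, (x - r i) := by
    intro x
    conv_lhs => rw [hp]
    rw [eval_prod]; simp
  have hdeg' : 0 < p.degree := natDegree_pos_iff_degree_pos.1 (by omega)
  -- the peaks
  have hw : ∀ j : ℕ, j ≤ q → ∃ x : ℝ, (∀ i : Fin q, (i : ℕ) < j → r i < x) ∧
      (∀ i : Fin q, j ≤ (i : ℕ) → x < r i) ∧ ρ ≤ |p.eval x| := by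
    intro j hj
    rcases Nat.eq_zero_or_pos j with h0 | h0
    · subst h0
      have ht : Tendsto (fun x : ℝ => ‖p.eval x‖) atBot atTop :=
        p.tendsto_norm_atTop hdeg' (z := fun x => x) (by
          simpa using tendsto_abs_atBot_atTop)
      have h2 := (ht.eventually_ge_atTop ρ).and (eventually_lt_atBot (r ⟨0, by omega⟩))
      obtain ⟨x, hx1, hx2⟩ := h2.exists
      refine ⟨x, fun i hi => absurd hi (by omega), fun i _ => ?_, hx1⟩
      exact lt_of_lt_of_le hx2 (hr.monotone (Fin.mk_le_of_le_val (Nat.zero_le _)))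
    · rcases Nat.lt_or_ge j q with h1 | h1
      · obtain ⟨E, hE, hE2⟩ := hpk (r ⟨j - 1, by omega⟩) (r ⟨j, h1⟩)
          (hr (by rw [Fin.mk_lt_mk]; omega)) (hr0 _) (hr0 _)
        refine ⟨E, fun i hi => ?_, fun i hi => ?_, hE2⟩
        · refine lt_of_le_of_lt (hr.monotone ?_) hE.1
          rw [Fin.le_def]; simp only; omega
        · refine lt_of_lt_of_le hE.2 (hr.monotone ?_)
          rw [Fin.le_def]; simpa using hi
      · have hjq : j = q := le_antisymm hj h1
        have ht : Tendsto (fun x : ℝ => ‖p.eval x‖) atTop atTop :=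
          p.tendsto_norm_atTop hdeg' (z := fun x => x) (by
            simpa using tendsto_abs_atTop_atTop)
        have h2 := (ht.eventually_ge_atTop ρ).and (eventually_gt_atTop (r ⟨q - 1, by omega⟩))
        obtain ⟨x, hx1, hx2⟩ := h2.exists
        refine ⟨x, fun i _ => ?_, fun i hi => absurd i.2 (by omega), hx1⟩
        refine lt_of_le_of_lt (hr.monotone ?_) hx2
        rw [Fin.le_def]; have := i.2; simp only; omega
  choose! w hw1 hw2 hw3 using hw
  -- consecutive signs
  have hsgn : ∀ j, j < q → p.eval (w j) * p.eval (w (j + 1)) < 0 := by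
    intro j hj
    rw [hev, hev, ← Finset.prod_mul_distrib, ← Finset.mul_prod_erase Finset.univ _
      (Finset.mem_univ (⟨j, hj⟩ : Fin q))]
    refine mul_neg_of_neg_of_pos ?_ (Finset.prod_pos fun i hi => ?_)
    · refine mul_neg_of_neg_of_pos ?_ ?_
      · have := hw2 j hj.le ⟨j, hj⟩ (le_refl _); linarith
      · have := hw1 (j + 1) hj ⟨j, hj⟩ (Nat.lt_succ_self j); linarith
    · have hne : (i : ℕ) ≠ j := fun h => (Finset.mem_erase.1 hi).1 (Fin.ext h)
      rcases Nat.lt_or_ge (i : ℕ) j with h | h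
      · have h1 := hw1 j hj.le i h
        have h2 := hw1 (j + 1) hj i (by omega)
        exact mul_pos (by linarith) (by linarith)
      · have h1 := hw2 j hj.le i h
        have h2 := hw2 (j + 1) hj i (by omega)
        exact mul_pos_of_neg_of_neg (by linarith) (by linarith)
  have hwlt : ∀ j, j < q → w j < w (j + 1) := fun j hj =>
    (hw2 j hj.le ⟨j, hj⟩ (le_refl _)).trans (hw1 (j + 1) hj ⟨j, hj⟩ (Nat.lt_succ_self j))
  have hwle : ∀ a b, a ≤ b → b ≤ q → w a ≤ w b := by
    intro a b hab
    induction b, hab using Nat.le_induction with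
    | base => intro _; exact le_refl _
    | succ b _ ih => intro hb; exact (ih (by omega)).trans (hwlt b (by omega)).le
  -- real rootedness of `p - c`
  have hreal : ∀ c : ℝ, |c| < ρ → ∃ t : Fin q → ℝ, Function.Injective t ∧
      p - C c = ∏ i, (X - C (t i)) := by
    intro c hc
    have hex : ∀ i : Fin q, ∃ x ∈ Ioo (w i) (w (i + 1)), p.eval x - c = 0 := by
      intro i
      refine ivt (f := fun x => p.eval x - c) (p.continuous.sub continuous_const) (hwlt i i.2) ?_
      show (p.eval (w i) - c) * (p.eval (w (i + 1)) - c) < 0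
      have h1 := hsgn i i.2
      have h2 := hw3 i i.2.le
      have h3 := hw3 (i + 1) i.2
      rw [abs_lt] at hc
      rcases mul_neg_iff.1 h1 with ⟨h4, h5⟩ | ⟨h4, h5⟩
      · rw [abs_of_pos h4] at h2
        rw [abs_of_neg h5] at h3
        exact mul_neg_of_pos_of_neg (by linarith) (by linarith)
      · rw [abs_of_neg h4] at h2
        rw [abs_of_pos h5] at h3
        exact mul_neg_of_neg_of_pos (by linarith) (by linarith)
    choose t ht1 ht2 using hex
    have hmono : StrictMono t := by
      intro i j hij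
      have h1 := (ht1 i).2
      have h2 := (ht1 j).1
      have h3 : w (i + 1) ≤ w j := hwle _ _ (by rw [Fin.lt_def] at hij; omega) j.2.le
      linarith
    refine ⟨t, hmono.injective, ?_⟩
    refine eq_prod_of_roots (hmon.sub_of_left ?_) (natDegree_sub_C.trans hq) hdeg
      hmono.injective ?_
    · exact lt_of_le_of_lt degree_C_le hdeg'
    · intro i; rw [eval_sub, eval_C]; exact ht2 i
  intro E hE
  constructor
  · obtain ⟨t, ht, hpt⟩ := hreal (p.eval E) hE
    have hsep : (p - C (p.eval E)).Separable := by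
      rw [hpt, separable_prod_X_sub_C_iff]; exact ht
    have := hsep.aeval_derivative_ne_zero (x := E) (by simp)
    simpa using this
  · have hlag : ∀ c, |c| < ρ → p.derivative.derivative.eval E * (p.eval E - c) ≤
        (p.derivative.eval E) ^ 2 := by
      intro c hc
      obtain ⟨t, ht, hpt⟩ := hreal c hc
      have h1 := laguerre_prod Finset.univ t E
      rw [← hpt] at h1
      simp only [derivative_sub, derivative_C, sub_zero, eval_sub, eval_C] at h1
      nlinarith
    have hlim : ∀ c, |c| ≤ ρ → p.derivative.derivative.eval E * (p.eval E - c) ≤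
        (p.derivative.eval E) ^ 2 := by
      intro c hc
      -- `c` is a limit of `s c`, `s ↑ 1`
      have hcont : Tendsto (fun s : ℝ => p.derivative.derivative.eval E * (p.eval E - s * c))
          (𝓝[<] 1) (𝓝 (p.derivative.derivative.eval E * (p.eval E - 1 * c))) := by
        refine Tendsto.mono_left ?_ nhdsWithin_le_nhds
        exact (Continuous.tendsto (by fun_prop) 1)
      have h2 := le_of_tendsto hcont (b := (p.derivative.eval E) ^ 2) ?_
      · simpa using h2
      · have : ∀ᶠ s : ℝ in 𝓝[<] 1, s ∈ Ioo (0 : ℝ) 1 := Ioo_mem_nhdsLT (by norm_num)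
        filter_upwards [this] with s hs
        refine hlag _ ?_
        rw [abs_mul, abs_of_pos hs.1]
        rcases (abs_nonneg c).eq_or_lt with h0 | h0
        · rw [← h0]; simpa using hρ
        · calc s * |c| < 1 * |c| := mul_lt_mul_of_pos_right hs.2 h0
            _ ≤ ρ := by rw [one_mul]; exact hc
    have h1 := hlim ρ (by rw [abs_of_pos hρ])
    have h2 := hlim (-ρ) (by rw [abs_neg, abs_of_pos hρ])
    set A := p.derivative.derivative.eval E
    have h3 := neg_abs_le (p.eval E)
    have h4 := le_abs_self (p.eval E)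
    rcases le_total 0 A with hA | hA
    · rw [abs_of_nonneg hA]; nlinarith
    · rw [abs_of_nonpos hA]; nlinarith

end H34LagAux

theorem H31.ST.H34.lag : H31.ST.T_LAG := by
  intro ρ p hρ hmon hdeg ⟨r, hr, hr0⟩ hpk
  exact H34LagAux.lag_core ρ p _ rfl hρ hmon hdeg r hr hr0 hpk

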