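import Pool.Agent.H31.ST.Targets

/-! Module POSMUL of MP_0b97f5_mp (helper34) -/

open Set Filter Topology Matrix

noncomputable section

namespace H31.ST.H34

lemma psd_form {p q r : ℝ} (hp : 0 ≤ p) (hr : 0 ≤ r) (hd : q ^ 2 ≤ p * r) (x y : ℝ) :
    0 ≤ x ^ 2 * p - 2 * x * y * q + y ^ 2 * r := by
  rcases hp.eq_or_lt with h0 | h0
  · subst h0
    have hq : q = 0 := by
      have : q ^ 2 ≤ 0 := by simpa using hd
      exact pow_eq_zero_iff (n := 2) (by norm_num) |>.1 (le_antisymm this (sq_nonneg q))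
    subst hq
    have := mul_nonneg (sq_nonneg y) hr
    linarith
  · have h1 : 0 ≤ p * (x ^ 2 * p - 2 * x * y * q + y ^ 2 * r) := by
      have : p * (x ^ 2 * p - 2 * x * y * q + y ^ 2 * r) =
          (x * p - y * q) ^ 2 + y ^ 2 * (p * r - q ^ 2) := by ring
      rw [this]
      have := mul_nonneg (sq_nonneg y) (sub_nonneg.2 hd)
      have := sq_nonneg (x * p - y * q)
      linarith
    exact nonneg_of_mul_nonneg_right h1 h0

/-- mixed discriminant inequality -/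
lemma mixed {a b c a' b' c' d d' : ℝ} (ha : 0 ≤ a) (hb : 0 ≤ b) (ha' : 0 ≤ a') (hb' : 0 ≤ b')
    (hd : 0 ≤ d) (hd' : 0 ≤ d') (h : d ^ 2 ≤ a * b - c ^ 2) (h' : d' ^ 2 ≤ a' * b' - c' ^ 2) :
    (d + d') ^ 2 ≤ (a + a') * (b + b') - (c + c') ^ 2 := by
  have key : 2 * (c * c' + d * d') ≤ a * b' + b * a' := by
    have h1 : (2 * (c * c' + d * d')) ^ 2 ≤ (a * b' + b * a') ^ 2 := by
      have e1 : (c * c' + d * d') ^ 2 ≤ (c ^ 2 + d ^ 2) * (c' ^ 2 + d' ^ 2) := by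
        nlinarith [sq_nonneg (c * d' - d * c')]
      have e2 : (c ^ 2 + d ^ 2) * (c' ^ 2 + d' ^ 2) ≤ (a * b) * (a' * b') := by
        apply mul_le_mul (by linarith) (by linarith) (by positivity)
        exact mul_nonneg ha hb
      nlinarith [sq_nonneg (a * b' - b * a')]
    have h2 : 0 ≤ a * b' + b * a' := add_nonneg (mul_nonneg ha hb') (mul_nonneg hb ha')
    exact (abs_le_of_sq_le_sq' h1 h2).2
  nlinarith

/-- the positivity data of `Pos` without the derivative -/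
def PD (H : Mat) (d : ℝ) : Prop :=
  H 0 1 = H 1 0 ∧ 0 ≤ H 0 0 ∧ 0 ≤ H 1 1 ∧ 0 ≤ d ∧ d ^ 2 ≤ H.det

lemma PD.add {H K : Mat} {d e : ℝ} (h : PD H d) (k : PD K e) : PD (H + K) (d + e) := by
  obtain ⟨h1, h2, h3, h4, h5⟩ := h
  obtain ⟨k1, k2, k3, k4, k5⟩ := k
  refine ⟨by simp [h1, k1], by simpa using add_nonneg h2 k2, by simpa using add_nonneg h3 k3,
    add_nonneg h4 k4, ?_⟩
  rw [Matrix.det_fin_two] at *
  rw [← h1] at h5
  rw [← k1] at k5
  simp only [Matrix.add_apply, ← h1, ← k1]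
  have := mixed (c := H 0 1) (c' := K 0 1) h2 h3 k2 k3 h4 k4 (by nlinarith) (by nlinarith)
  nlinarith

/-- the transported form -/
def tr (A H : Mat) : Mat := (A.adjugate)ᵀ * H * A.adjugate

lemma PD.tr {A H : Mat} {d : ℝ} (hA : A.det = 1) (h : PD H d) : PD (tr A H) d := by
  obtain ⟨h1, h2, h3, h4, h5⟩ := h
  have hq : (H 0 1) ^ 2 ≤ H 0 0 * H 1 1 := by
    rw [Matrix.det_fin_two, ← h1] at h5
    nlinarith [sq_nonneg d]
  have e00 : (H34.tr A H) 0 0 = (A 1 1) ^ 2 * H 0 0 - 2 * (A 1 1) * (A 1 0) * H 0 1 +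
      (A 1 0) ^ 2 * H 1 1 := by
    simp only [H34.tr, Matrix.adjugate_fin_two, Matrix.mul_apply, Fin.sum_univ_two,
      Matrix.transpose_apply, Matrix.of_apply, Matrix.cons_val', Matrix.cons_val_zero,
      Matrix.cons_val_one, Matrix.cons_val_fin_one, ← h1]
    ring
  have e11 : (H34.tr A H) 1 1 = (A 0 1) ^ 2 * H 0 0 - 2 * (A 0 1) * (A 0 0) * H 0 1 +
      (A 0 0) ^ 2 * H 1 1 := by
    simp only [H34.tr, Matrix.adjugate_fin_two, Matrix.mul_apply, Fin.sum_univ_two,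
      Matrix.transpose_apply, Matrix.of_apply, Matrix.cons_val', Matrix.cons_val_zero,
      Matrix.cons_val_one, Matrix.cons_val_fin_one, ← h1]
    ring
  have e01 : (H34.tr A H) 0 1 = (H34.tr A H) 1 0 := by
    simp only [H34.tr, Matrix.adjugate_fin_two, Matrix.mul_apply, Fin.sum_univ_two,
      Matrix.transpose_apply, Matrix.of_apply, Matrix.cons_val', Matrix.cons_val_zero,
      Matrix.cons_val_one, Matrix.cons_val_fin_one, ← h1]
    ring
  refine ⟨e01, ?_, ?_, h4, ?_⟩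
  · rw [e00]; exact psd_form h2 h3 hq _ _
  · rw [e11]; exact psd_form h2 h3 hq _ _
  · rw [H34.tr, Matrix.det_mul, Matrix.det_mul, Matrix.det_transpose, Matrix.det_adjugate, hA]
    simpa using h5

lemma J_adj (A : Mat) : J * (A.adjugate)ᵀ = A * J := by
  ext i j
  fin_cases i <;> fin_cases j <;>
    simp [J, Matrix.adjugate_fin_two, Matrix.mul_apply, Fin.sum_univ_two]

lemma alg (A B H K : Mat) (hA : A.det = 1) :
    -(J * H * A) * B + A * (-(J * K * B)) = -(J * (H + tr A K) * (A * B)) := by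
  have hadj : A.adjugate * A = 1 := by rw [Matrix.adjugate_mul, hA, one_smul]
  have h1 : J * (tr A K) * (A * B) = A * J * K * B := by
    calc J * (tr A K) * (A * B) = (J * (A.adjugate)ᵀ) * K * (A.adjugate * A) * B := by
          simp only [tr, Matrix.mul_assoc]
      _ = A * J * K * B := by rw [hadj, J_adj, Matrix.mul_one]
  rw [Matrix.mul_add, Matrix.add_mul, h1]
  simp only [Matrix.mul_assoc, Matrix.neg_mul, Matrix.mul_neg, neg_add]

lemma deriv_mul {A B : ℝ → Mat} {t : ℝ} {H K : Mat} (hA : (A t).det = 1)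
    (h : ∀ i j, HasDerivAt (fun s => A s i j) ((-(J * H * A t)) i j) t)
    (k : ∀ i j, HasDerivAt (fun s => B s i j) ((-(J * K * B t)) i j) t) :
    ∀ i j, HasDerivAt (fun s => (A s * B s) i j)
      ((-(J * (H + tr (A t) K) * (A t * B t))) i j) t := by
  intro i j
  rw [← alg (A t) (B t) H K hA]
  have h1 : (fun s => (A s * B s) i j) = fun s => A s i 0 * B s 0 j + A s i 1 * B s 1 j := by
    funext s; rw [Matrix.mul_apply, Fin.sum_univ_two]
  rw [h1]
  have h2 := (((h i 0).mul (k 0 j)).add ((h i 1).mul (k 1 j)))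
  refine h2.congr_deriv ?_
  rw [Matrix.add_apply, Matrix.mul_apply, Matrix.mul_apply, Fin.sum_univ_two, Fin.sum_univ_two]
  ring

lemma tr_pos {A H : Mat} {d : ℝ} (hA : A.det = 1) (h : PD H d) (hs : 0 < H 0 0 + H 1 1) :
    0 < (tr A H) 0 0 + (tr A H) 1 1 := by
  obtain ⟨k1, k2, k3, k4, k5⟩ := h.tr hA
  by_contra hcon
  have z0 : (tr A H) 0 0 = 0 := by linarith
  have z1 : (tr A H) 1 1 = 0 := by linarith
  have z2 : (tr A H) 0 1 = 0 := by
    rw [Matrix.det_fin_two, z0, ← k1] at k5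
    have : ((tr A H) 0 1) ^ 2 ≤ 0 := by nlinarith [sq_nonneg d]
    exact pow_eq_zero_iff (n := 2) (by norm_num) |>.1 (le_antisymm this (sq_nonneg _))
  have z3 : tr A H = 0 := by
    ext i j
    fin_cases i <;> fin_cases j
    · exact z0
    · exact z2
    · exact k1 ▸ z2
    · exact z1
  have hadj : A.adjugate * A = 1 := by rw [Matrix.adjugate_mul, hA, one_smul]
  have hadj' : Aᵀ * (A.adjugate)ᵀ = 1 := by
    rw [← Matrix.transpose_mul, hadj, Matrix.transpose_one]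
  have h1 : H = Aᵀ * tr A H * A := by
    calc H = (Aᵀ * (A.adjugate)ᵀ) * H * (A.adjugate * A) := by
          rw [hadj, hadj', Matrix.one_mul, Matrix.mul_one]
      _ = Aᵀ * tr A H * A := by simp only [tr, Matrix.mul_assoc]
  rw [z3, Matrix.mul_zero, Matrix.zero_mul] at h1
  rw [h1] at hs
  simp at hs

theorem posmul : T_POSMUL := by
  intro A B t dA dB hA
  refine ⟨?_, ?_, ?_⟩
  · rintro ⟨H, h1, h2, h3, h4, h5, h6⟩ ⟨K, k1, k2, k3, k4, k5, k6⟩
    have hPD := PD.add (H := H) (d := dA) ⟨h1, h2, h3, h4, h5⟩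
      (PD.tr (H := K) (d := dB) hA ⟨k1, k2, k3, k4, k5⟩)
    exact ⟨H + tr (A t) K, hPD.1, hPD.2.1, hPD.2.2.1, hPD.2.2.2.1, hPD.2.2.2.2,
      deriv_mul hA h6 k6⟩
  · rintro ⟨H, h1, h2, h3, hs, h4, h5, h6⟩ ⟨K, k1, k2, k3, k4, k5, k6⟩
    have hK := PD.tr (H := K) (d := dB) hA ⟨k1, k2, k3, k4, k5⟩
    have hPD := PD.add (H := H) (d := dA) ⟨h1, h2, h3, h4, h5⟩ hK
    refine ⟨H + tr (A t) K, hPD.1, hPD.2.1, hPD.2.2.1, ?_, hPD.2.2.2.1, hPD.2.2.2.2,
      deriv_mul hA h6 k6⟩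
    have e1 := hK.2.1
    have e2 := hK.2.2.1
    simp only [Matrix.add_apply]
    linarith
  · rintro ⟨H, h1, h2, h3, h4, h5, h6⟩ ⟨K, k1, k2, k3, ks, k4, k5, k6⟩
    have hK := PD.tr (H := K) (d := dB) hA ⟨k1, k2, k3, k4, k5⟩
    have hPD := PD.add (H := H) (d := dA) ⟨h1, h2, h3, h4, h5⟩ hK
    refine ⟨H + tr (A t) K, hPD.1, hPD.2.1, hPD.2.2.1, ?_, hPD.2.2.2.1, hPD.2.2.2.2,
      deriv_mul hA h6 k6⟩
    have e1 := tr_pos (H := K) (d := dB) hA ⟨k1, k2, k3, k4, k5⟩ ks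
    simp only [Matrix.add_apply]
    linarith

/-- TRDER -/
lemma trder_core {A : ℝ → Mat} {t : ℝ} {H : Mat} {d : ℝ} (hA : (A t).det = 1)
    (hel : |(A t).trace| < 2) (hor : 0 < (A t) 1 0) (hPD : PD H d)
    (h : ∀ i j, HasDerivAt (fun s => A s i j) ((-(J * H * A t)) i j) t) :
    ∃ r, HasDerivAt (fun s => (A s).trace) r t ∧
      d * Real.sqrt (4 - (A t).trace ^ 2) ≤ r ∧ (0 < H 0 0 + H 1 1 → 0 < r) := by
  obtain ⟨h1, h2, h3, h4, h5⟩ := hPD
  refine ⟨(-(J * H * A t)) 0 0 + (-(J * H * A t)) 1 1, ?_, ?_⟩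
  · have : (fun s => (A s).trace) = fun s => A s 0 0 + A s 1 1 := by
      funext s; rw [Matrix.trace_fin_two]
    rw [this]
    exact (h 0 0).add (h 1 1)
  set a := (A t) 0 0 with ha
  set b := (A t) 0 1 with hb
  set c := (A t) 1 0 with hc
  set e := (A t) 1 1 with he
  have hr : (-(J * H * A t)) 0 0 + (-(J * H * A t)) 1 1 =
      H 1 1 * c - H 0 0 * b + H 0 1 * (a - e) := by
    simp only [J, Matrix.neg_apply, Matrix.mul_apply, Fin.sum_univ_two, Matrix.of_apply,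
      Matrix.cons_val', Matrix.cons_val_zero, Matrix.cons_val_one, Matrix.cons_val_fin_one,
      ← h1, ← ha, ← hb, ← hc, ← he]
    ring
  rw [hr]
  rw [Matrix.det_fin_two] at hA h5
  rw [← h1] at h5
  rw [Matrix.trace_fin_two] at *
  rw [← ha, ← hb, ← hc, ← he] at hA
  rw [← ha, ← he] at hel ⊢
  have htr : (a + e) ^ 2 < 4 := by
    have := (sq_lt_sq' (abs_lt.1 hel).1 (abs_lt.1 hel).2); linarith
  -- `G = [[-b, (a-e)/2], [(a-e)/2, c]]` is positive definite with determinant `1 - tr²/4`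
  have hdetG : (-b) * c - ((a - e) / 2) ^ 2 = 1 - (a + e) ^ 2 / 4 := by
    linear_combination hA
  have hnb : 0 < -b := by
    by_contra hcon
    have : (-b) * c ≤ 0 := mul_nonpos_of_nonpos_of_nonneg (by linarith) hor.le
    nlinarith [sq_nonneg ((a - e) / 2)]
  set D := 4 - (a + e) ^ 2 with hD
  have hD0 : 0 < D := by linarith
  have hsq : Real.sqrt D ^ 2 = D := Real.sq_sqrt hD0.le
  have hs0 : 0 ≤ Real.sqrt D := Real.sqrt_nonneg D
  have hlow : d * Real.sqrt D ≤ H 1 1 * c - H 0 0 * b + H 0 1 * (a - e) := by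
    have hh0 : 0 ≤ H 1 1 * c + H 0 0 * (-b) := add_nonneg (mul_nonneg h3 hor.le) (mul_nonneg h2 hnb.le)
    have hkey : d * Real.sqrt D + H 0 1 * (-(a - e)) ≤ H 1 1 * c + H 0 0 * (-b) := by
      have hq : (d * Real.sqrt D + H 0 1 * (-(a - e))) ^ 2 ≤ (H 1 1 * c + H 0 0 * (-b)) ^ 2 := by
        have e1 : (d * Real.sqrt D + H 0 1 * (-(a - e))) ^ 2 ≤
            (d ^ 2 + H 0 1 ^ 2) * (D + (a - e) ^ 2) := by
          have : (d ^ 2 + H 0 1 ^ 2) * (D + (a - e) ^ 2) =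
              (d ^ 2 + H 0 1 ^ 2) * (Real.sqrt D ^ 2 + (a - e) ^ 2) := by rw [hsq]
          rw [this]
          nlinarith [sq_nonneg (d * (a - e) + H 0 1 * Real.sqrt D)]
        have e2 : D + (a - e) ^ 2 = 4 * ((-b) * c) := by rw [hD]; linear_combination (-4) * hA
        have e3 : d ^ 2 + H 0 1 ^ 2 ≤ H 0 0 * H 1 1 := by nlinarith
        have e4 : (d ^ 2 + H 0 1 ^ 2) * (D + (a - e) ^ 2) ≤ (H 0 0 * H 1 1) * (4 * ((-b) * c)) := by
          rw [e2]
          exact mul_le_mul_of_nonneg_right e3 (by positivity)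
        nlinarith [sq_nonneg (H 1 1 * c - H 0 0 * (-b))]
      exact (abs_le_of_sq_le_sq' hq hh0).2
    linarith
  refine ⟨hlow, fun hs => ?_⟩
  -- strictness
  have hh0 : 0 < H 1 1 * c + H 0 0 * (-b) := by
    rcases h2.eq_or_lt with h | h
    · have : 0 < H 1 1 := by linarith
      have := mul_pos this hor
      rw [← h]; linarith
    · have := mul_pos h hnb
      have := mul_nonneg h3 hor.le
      linarith
  have e2 : (a - e) ^ 2 < 4 * ((-b) * c) := by nlinarith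
  have e3 : H 0 1 ^ 2 ≤ H 0 0 * H 1 1 := by nlinarith [sq_nonneg d]
  have hkey : H 0 1 * (-(a - e)) < H 1 1 * c + H 0 0 * (-b) := by
    by_contra hcon
    push Not at hcon
    have h6 : (H 1 1 * c + H 0 0 * (-b)) ^ 2 ≤ (H 0 1 * (-(a - e))) ^ 2 :=
      pow_le_pow_left₀ hh0.le hcon 2
    have h7 : (H 0 1 * (-(a - e))) ^ 2 ≤ (H 0 0 * H 1 1) * (a - e) ^ 2 := by
      nlinarith [sq_nonneg (a - e)]
    have h8 : 0 ≤ H 0 0 * H 1 1 := mul_nonneg h2 h3
    have h9 : (H 0 0 * H 1 1) * (a - e) ^ 2 ≤ (H 0 0 * H 1 1) * (4 * ((-b) * c)) :=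
      mul_le_mul_of_nonneg_left e2.le h8
    have h10 : (H 1 1 * c - H 0 0 * (-b)) ^ 2 ≤ 0 := by nlinarith
    have h11 : H 1 1 * c = H 0 0 * (-b) := by
      have := pow_eq_zero_iff (n := 2) (by norm_num) |>.1 (le_antisymm h10 (sq_nonneg _))
      linarith
    have h12 : 0 < H 0 0 := by
      by_contra hc0
      have h00 : H 0 0 = 0 := le_antisymm (not_lt.1 hc0) h2
      rw [h00] at hh0 h11
      simp at h11
      rcases h11 with h11 | h11
      · rw [h11] at hh0; simp at hh0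
      · linarith
    have h13 : 0 < H 1 1 := by
      have : 0 < H 1 1 * c := by rw [h11]; exact mul_pos h12 hnb
      exact pos_of_mul_pos_left this hor.le
    have h14 : (H 0 0 * H 1 1) * (a - e) ^ 2 < (H 0 0 * H 1 1) * (4 * ((-b) * c)) :=
      mul_lt_mul_of_pos_left e2 (mul_pos h12 h13)
    nlinarith
  linarith

theorem trder : T_TRDER := by
  intro A t d hA hel hor
  refine ⟨?_, ?_⟩
  · rintro ⟨H, h1, h2, h3, h4, h5, h6⟩
    obtain ⟨r, hr1, hr2, -⟩ := trder_core hA hel hor ⟨h1, h2, h3, h4, h5⟩ h6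
    exact ⟨r, hr1, hr2⟩
  · rintro ⟨H, h1, h2, h3, hs, h4, h5, h6⟩
    obtain ⟨r, hr1, hr2, hr3⟩ := trder_core hA hel hor ⟨h1, h2, h3, h4, h5⟩ h6
    exact ⟨r, hr1, hr3 hs, hr2⟩

end H31.ST.H34

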