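import Pool.Agent.H31.ST.Targets

/-! Module RATIO of MP_0b97f5_mp (helper34) -/

open Set Filter Topology

noncomputable section

namespace H31.ST.H34

theorem ratio : T_RATIO := by
  intro ρ hρ
  set θ : ℝ := (ρ + 2) / 2 with hθ
  have hθ2 : 2 < θ := by rw [hθ]; linarith
  have hθρ : θ < ρ := by rw [hθ]; linarith
  set K₁ : ℝ := 2 / (ρ - 2) with hK₁
  have hK₁0 : 0 < K₁ := by rw [hK₁]; exact div_pos (by norm_num) (by linarith)
  set C : ℝ := 4 * Real.exp (K₁ * (2 * θ)) / (θ - 2) with hC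
  have hC0 : 0 < C := by
    rw [hC]; exact div_pos (by positivity) (by linarith)
  refine ⟨C + 1, by linarith, ?_⟩
  intro f b u v e hbu huv hve hf hfb hfu hfv hfe hpos hdis
  have hcont : Continuous f := hf.continuous
  have hdiff : Differentiable ℝ f := hf.differentiable (by norm_num)
  have hd2 : Differentiable ℝ (deriv f) := hf.differentiable_deriv_two
  have hd1c : Continuous (deriv f) := hd2.continuous
  -- the first time after `v` at which `f` reaches `θ`
  obtain ⟨v₁, ⟨⟨hv1a, hv1b⟩, hv1c⟩, hv1m⟩ : ∃ v₁, IsLeast {t | t ∈ Icc v e ∧ θ ≤ f t} v₁ := by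
    refine IsCompact.exists_isLeast ?_ ⟨e, ⟨hve.le, le_refl _⟩, by linarith⟩
    exact isCompact_Icc.inter_right (isClosed_le continuous_const hcont)
  have hlt : ∀ t ∈ Ico v v₁, f t < θ := by
    intro t ht
    by_contra hcon
    exact absurd (hv1m ⟨⟨ht.1, ht.2.le.trans hv1b⟩, not_lt.1 hcon⟩) (not_le.2 ht.2)
  have hvv1 : v < v₁ := by
    rcases hv1a.eq_or_lt with h | h
    · rw [← h, hfv] at hv1c; linarith
    · exact h
  have hfv1 : f v₁ = θ := by
    obtain ⟨t, ht, htθ⟩ := intermediate_value_Icc hv1a hcont.continuousOn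
      (show θ ∈ Icc (f v) (f v₁) from ⟨by rw [hfv]; linarith, hv1c⟩)
    rcases ht.2.eq_or_lt with h | h
    · rw [← h]; exact htθ
    · exact absurd htθ (hlt t ⟨ht.1, h⟩).ne
  have hle : ∀ t ∈ Icc v v₁, f t ≤ θ := by
    intro t ht
    rcases ht.2.eq_or_lt with h | h
    · rw [h, hfv1]
    · exact (hlt t ⟨ht.1, h⟩).le
  have mono_of : ∀ s t : ℝ, s ≤ t → (∀ x ∈ Ioo s t, 0 < deriv f x) → f s ≤ f t := by
    intro s t hst hx
    refine monotoneOn_of_deriv_nonneg (convex_Icc s t) hcont.continuousOn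
      hdiff.differentiableOn (fun x hx' => ?_) ⟨le_refl _, hst⟩ ⟨hst, le_refl _⟩ hst
    rw [interior_Icc] at hx'
    exact (hx x hx').le
  -- the derivative is positive on `[v, v₁]`
  have hpos1 : ∀ t ∈ Icc v v₁, 0 < deriv f t := by
    by_contra hcon
    push Not at hcon
    obtain ⟨t', ht', ht'0⟩ := hcon
    obtain ⟨t₀, ⟨ht0, ht00⟩, ht0m⟩ : ∃ t₀, IsLeast {t | t ∈ Icc v v₁ ∧ deriv f t ≤ 0} t₀ := by
      refine IsCompact.exists_isLeast ?_ ⟨t', ht', ht'0⟩
      exact isCompact_Icc.inter_right (isClosed_le hd1c continuous_const)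
    have hposv : 0 < deriv f v := hpos v ⟨huv.le, le_refl _⟩
    have hbefore : ∀ x ∈ Ico v t₀, 0 < deriv f x := by
      intro x hx
      by_contra hc
      exact absurd (ht0m ⟨⟨hx.1, hx.2.le.trans ht0.2⟩, not_lt.1 hc⟩) (not_le.2 hx.2)
    have h2 : 2 ≤ f t₀ := by
      rw [← hfv]; exact mono_of v t₀ ht0.1 fun x hx => hbefore x ⟨hx.1.le, hx.2⟩
    have h3 : f t₀ ≤ θ := hle t₀ ht0
    have h4 : |f t₀| < ρ := by rw [abs_of_nonneg (by linarith)]; linarith
    have h5 := (hdis t₀ ⟨by linarith [ht0.1], ht0.2.trans hv1b⟩ h4).1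
    have h6 : deriv f t₀ < 0 := lt_of_le_of_ne ht00 h5
    obtain ⟨x, hx, hx0⟩ := intermediate_value_Ioo' ht0.1 hd1c.continuousOn
      (show (0 : ℝ) ∈ Ioo (deriv f t₀) (deriv f v) from ⟨h6, hposv⟩)
    exact absurd hx0 (hbefore x ⟨hx.1.le, hx.2⟩).ne'
  have hposall : ∀ t ∈ Icc u v₁, 0 < deriv f t := by
    intro t ht
    rcases le_total t v with h | h
    · exact hpos t ⟨ht.1, h⟩
    · exact hpos1 t ⟨h, ht.2⟩
  have hbd : ∀ t ∈ Icc u v₁, -2 ≤ f t ∧ f t ≤ θ := by
    intro t ht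
    constructor
    · rw [← hfu]
      exact mono_of u t ht.1 fun x hx => hposall x ⟨hx.1.le, hx.2.le.trans ht.2⟩
    · rw [← hfv1]
      exact mono_of t v₁ ht.2 fun x hx => hposall x ⟨ht.1.trans hx.1.le, hx.2.le⟩
  have hdist : ∀ t ∈ Icc u v₁, deriv (deriv f) t ≤ K₁ * (deriv f t) ^ 2 := by
    intro t ht
    obtain ⟨h1, h2⟩ := hbd t ht
    have habs : |f t| ≤ θ := abs_le.2 ⟨by linarith, h2⟩
    have h3 := (hdis t ⟨by linarith [ht.1], ht.2.trans hv1b⟩ (lt_of_le_of_lt habs hθρ)).2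
    have h4 : (ρ - 2) / 2 ≤ ρ - |f t| := by rw [hθ] at habs; linarith
    have h5 : |deriv (deriv f) t| * ((ρ - 2) / 2) ≤ (deriv f t) ^ 2 :=
      (mul_le_mul_of_nonneg_left h4 (abs_nonneg _)).trans h3
    have h6 : |deriv (deriv f) t| ≤ K₁ * (deriv f t) ^ 2 := by
      have h7 : 0 < ρ - 2 := by linarith
      rw [hK₁, div_mul_eq_mul_div, le_div_iff₀ h7]
      linarith
    exact (le_abs_self _).trans h6
  -- distortion
  have hmono : MonotoneOn (fun t => K₁ * f t - Real.log (deriv f t)) (Icc u v₁) := by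
    have hder : ∀ t ∈ Icc u v₁, HasDerivAt (fun t => K₁ * f t - Real.log (deriv f t))
        (K₁ * deriv f t - deriv (deriv f) t / deriv f t) t := by
      intro t ht
      exact ((hdiff t).hasDerivAt.const_mul K₁).sub
        ((hd2 t).hasDerivAt.log (hposall t ht).ne')
    refine monotoneOn_of_deriv_nonneg (convex_Icc u v₁) ?_ ?_ ?_
    · exact fun t ht => (hder t ht).continuousAt.continuousWithinAt
    · exact fun t ht => (hder t (interior_subset ht)).differentiableAt.differentiableWithinAt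
    · intro t ht
      have ht' := interior_subset ht
      rw [(hder t ht').deriv]
      have h1 := hposall t ht'
      have h2 := hdist t ht'
      have h3 : deriv (deriv f) t / deriv f t ≤ K₁ * deriv f t := by
        rw [div_le_iff₀ h1]; nlinarith
      linarith
  obtain ⟨s₁, hs1, hs1e⟩ := exists_deriv_eq_slope f huv hcont.continuousOn hdiff.differentiableOn
  obtain ⟨s₂, hs2, hs2e⟩ := exists_deriv_eq_slope f hvv1 hcont.continuousOn hdiff.differentiableOn
  have hs1' : s₁ ∈ Icc u v₁ := ⟨hs1.1.le, hs1.2.le.trans hv1a⟩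
  have hs2' : s₂ ∈ Icc u v₁ := ⟨huv.le.trans hs2.1.le, hs2.2.le⟩
  have h1 := hmono hs1' hs2' (hs1.2.le.trans hs2.1.le)
  simp only at h1
  have h2 : Real.log (deriv f s₂) ≤ K₁ * (2 * θ) + Real.log (deriv f s₁) := by
    have h3 := (hbd s₁ hs1').1
    have h4 := (hbd s₂ hs2').2
    have h5 : K₁ * (f s₂ - f s₁) ≤ K₁ * (2 * θ) :=
      mul_le_mul_of_nonneg_left (by linarith) hK₁0.le
    nlinarith
  have h3 : deriv f s₂ ≤ Real.exp (K₁ * (2 * θ)) * deriv f s₁ := by
    have h4 := Real.exp_le_exp.2 h2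
    rwa [Real.exp_add, Real.exp_log (hposall s₂ hs2'), Real.exp_log (hposall s₁ hs1')] at h4
  rw [hs1e, hs2e, hfu, hfv, hfv1] at h3
  have hd1 : 0 < v - u := by linarith
  have hd3 : 0 < v₁ - v := by linarith
  have h4 : v - u ≤ C * (v₁ - v) := by
    rw [div_le_iff₀ hd3] at h3
    have h5 : (θ - 2) * (v - u) ≤ 4 * Real.exp (K₁ * (2 * θ)) * (v₁ - v) := by
      have h6 := mul_le_mul_of_nonneg_right h3 hd1.le
      have h7 : Real.exp (K₁ * (2 * θ)) * ((2 - -2) / (v - u)) * (v₁ - v) * (v - u) =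
          4 * Real.exp (K₁ * (2 * θ)) * (v₁ - v) := by
        field_simp; ring
      rw [h7] at h6
      exact h6
    rw [hC, div_mul_eq_mul_div, le_div_iff₀ (by linarith)]
    linarith
  have h5 : v - u + (v₁ - v) ≤ e - b := by linarith
  have h6 : (1 - 1 / (C + 1)) = C / (C + 1) := by field_simp; ring
  rw [h6, div_mul_eq_mul_div, le_div_iff₀ (by linarith)]
  nlinarith

end H31.ST.H34

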