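import Pool.Agent.H31.ST.Targets

/-! Modules DIG and GROWTH of MP_0b97f5_mp (helper34) -/

open Set Filter Topology MeasureTheory

noncomputable section

namespace H31.ST.H34

lemma measurable_gauss : Measurable gauss := measurable_fract.comp measurable_inv

lemma measurable_gauss_iter (n : ℕ) : Measurable (gauss^[n]) := measurable_gauss.iterate n

lemma measurable_dig : Measurable dig := by
  rw [measurable_pi_iff]
  intro n
  exact Nat.measurable_floor.comp (measurable_inv.comp (measurable_gauss_iter n))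

lemma gauss_mem {α : ℝ} (hi : Irrational α) :
    gauss α ∈ Ioo (0 : ℝ) 1 ∧ Irrational (gauss α) := by
  have h1 : Irrational (gauss α) := by
    unfold gauss
    rw [Int.fract]
    exact hi.inv.sub_intCast _
  refine ⟨⟨lt_of_le_of_ne (Int.fract_nonneg _) ?_, Int.fract_lt_one _⟩, h1⟩
  intro h
  exact h1.ne_zero h.symm

lemma iter_mem {α : ℝ} (hα : α ∈ Ioo (0 : ℝ) 1) (hi : Irrational α) (k : ℕ) :
    gauss^[k] α ∈ Ioo (0 : ℝ) 1 ∧ Irrational (gauss^[k] α) := by
  induction k with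
  | zero => exact ⟨hα, hi⟩
  | succ k ih =>
    rw [Function.iterate_succ_apply']
    exact gauss_mem ih.2

theorem dig' : T_DIG := by
  refine ⟨measurable_dig, measurable_gauss, fun α hα hi => ?_⟩
  refine ⟨(gauss_mem hi).1, (gauss_mem hi).2, fun k => ?_, ?_⟩
  · have h := (iter_mem hα hi k).1
    unfold dig
    rw [Nat.one_le_floor_iff]
    exact (one_le_inv₀ h.1).2 h.2.le
  · funext n
    unfold dig shift2
    rw [← Function.iterate_succ_apply, ← Function.iterate_succ_apply]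

/-! ### GROWTH -/

lemma dig_succ (x : ℝ) (k : ℕ) : dig x (k + 1) = dig (gauss x) k := by
  unfold dig; rw [Function.iterate_succ_apply]

lemma dig_zero (k : ℕ) : dig 0 k = 0 := by
  have h : gauss^[k] 0 = 0 := by
    induction k with
    | zero => rfl
    | succ k ih =>
      rw [Function.iterate_succ_apply]
      have : gauss 0 = 0 := by unfold gauss; simp
      rw [this, ih]
  unfold dig; rw [h]; simp

/-- the (unnormalised) Gauss measure -/
def nu (A : Set ℝ) : ENNReal := ∫⁻ x in A, ENNReal.ofReal (1 / (1 + x))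

lemma nu_mono {A B : Set ℝ} (h : A ⊆ B) : nu A ≤ nu B := lintegral_mono_set h

lemma nu_preimage {A : Set ℝ} (hA : MeasurableSet A) (hs : A ⊆ Ioo 0 1) :
    nu {x | x ∈ Ioo (0 : ℝ) 1 ∧ gauss x ∈ A} ≤ nu A := by
  have hsub : {x | x ∈ Ioo (0 : ℝ) 1 ∧ gauss x ∈ A} ⊆
      ⋃ n : ℕ, (fun y : ℝ => ((n : ℝ) + 1 + y)⁻¹) '' A := by
    rintro x ⟨⟨hx0, hx1⟩, hxA⟩
    have h1 : 1 ≤ ⌊x⁻¹⌋ := Int.le_floor.2 (by
      have := (one_lt_inv₀ hx0).2 hx1
      push_cast; exact this.le)
    refine mem_iUnion.2 ⟨(⌊x⁻¹⌋ - 1).toNat, gauss x, hxA, ?_⟩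
    have h2 : (((⌊x⁻¹⌋ - 1).toNat : ℕ) : ℝ) = (⌊x⁻¹⌋ : ℝ) - 1 := by
      have : (((⌊x⁻¹⌋ - 1).toNat : ℕ) : ℤ) = ⌊x⁻¹⌋ - 1 := Int.toNat_of_nonneg (by omega)
      have h3 := congrArg (fun z : ℤ => (z : ℝ)) this
      push_cast at h3
      exact_mod_cast h3
    simp only
    rw [h2]
    have h4 : (⌊x⁻¹⌋ : ℝ) - 1 + 1 + gauss x = x⁻¹ := by
      unfold gauss; rw [sub_add_cancel]; exact Int.floor_add_fract _
    rw [h4, inv_inv]
  have hpos : ∀ n : ℕ, ∀ y ∈ A, (0 : ℝ) < (n : ℝ) + 1 + y := by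
    intro n y hy
    have := (hs hy).1
    positivity
  have himg : ∀ n : ℕ, nu ((fun y : ℝ => ((n : ℝ) + 1 + y)⁻¹) '' A) =
      ∫⁻ y in A, ENNReal.ofReal (((n : ℝ) + 1 + y)⁻¹ - ((n : ℝ) + 2 + y)⁻¹) := by
    intro n
    unfold nu
    have hder : ∀ y ∈ A, HasDerivWithinAt (fun y : ℝ => ((n : ℝ) + 1 + y)⁻¹)
        (-1 / ((n : ℝ) + 1 + y) ^ 2) A y := by
      intro y hy
      have h0 := hpos n y hy
      have h1 : HasDerivAt (fun y : ℝ => (n : ℝ) + 1 + y) 1 y := by
        simpa using (hasDerivAt_id y).const_add ((n : ℝ) + 1)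
      exact (h1.inv h0.ne').hasDerivWithinAt
    have hinj : InjOn (fun y : ℝ => ((n : ℝ) + 1 + y)⁻¹) A := by
      intro y _ z _ hyz
      have := inv_injective hyz
      linarith
    rw [lintegral_image_eq_lintegral_abs_deriv_mul hA hder hinj]
    refine setLIntegral_congr_fun hA fun y hy => ?_
    have h0 := hpos n y hy
    show ENNReal.ofReal |(-1 / ((n : ℝ) + 1 + y) ^ 2)| *
      ENNReal.ofReal (1 / (1 + ((n : ℝ) + 1 + y)⁻¹)) = _
    rw [← ENNReal.ofReal_mul (abs_nonneg _)]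
    congr 1
    rw [abs_div, abs_neg, abs_one, abs_of_pos (pow_pos h0 2)]
    have h3 : (0 : ℝ) < (n : ℝ) + 2 + y := by linarith
    have h4 : 1 + ((n : ℝ) + 1 + y)⁻¹ = ((n : ℝ) + 2 + y) / ((n : ℝ) + 1 + y) := by
      field_simp; ring
    rw [h4]
    field_simp
    ring
  calc nu {x | x ∈ Ioo (0 : ℝ) 1 ∧ gauss x ∈ A}
      ≤ nu (⋃ n : ℕ, (fun y : ℝ => ((n : ℝ) + 1 + y)⁻¹) '' A) := nu_mono hsub
    _ ≤ ∑' n : ℕ, nu ((fun y : ℝ => ((n : ℝ) + 1 + y)⁻¹) '' A) := lintegral_iUnion_le _ _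
    _ = ∑' n : ℕ, ∫⁻ y in A, ENNReal.ofReal (((n : ℝ) + 1 + y)⁻¹ - ((n : ℝ) + 2 + y)⁻¹) := by
        congr 1; funext n; exact himg n
    _ = ∫⁻ y in A, ∑' n : ℕ, ENNReal.ofReal (((n : ℝ) + 1 + y)⁻¹ - ((n : ℝ) + 2 + y)⁻¹) := by
        rw [lintegral_tsum]
        intro n
        exact (Measurable.ennreal_ofReal (by fun_prop)).aemeasurable
    _ ≤ nu A := by
        unfold nu
        refine setLIntegral_mono' hA fun y hy => ?_
        have hy0 : 0 < y := (hs hy).1
        refine ENNReal.tsum_le_of_sum_range_le fun m => ?_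
        rw [← ENNReal.ofReal_sum_of_nonneg]
        · refine ENNReal.ofReal_le_ofReal ?_
          have h5 : ∑ n ∈ Finset.range m, (((n : ℝ) + 1 + y)⁻¹ - ((n : ℝ) + 2 + y)⁻¹) =
              (1 + y)⁻¹ - ((m : ℝ) + 1 + y)⁻¹ := by
            induction m with
            | zero => simp
            | succ m ih =>
              rw [Finset.sum_range_succ, ih]
              push_cast
              have : (m : ℝ) + 1 + 1 + y = (m : ℝ) + 2 + y := by ring
              rw [this]; ring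
          rw [h5, one_div]
          have : (0 : ℝ) ≤ ((m : ℝ) + 1 + y)⁻¹ := by positivity
          linarith
        · intro n _
          have h6 : (0 : ℝ) < (n : ℝ) + 1 + y := by positivity
          rw [sub_nonneg]
          exact inv_anti₀ h6 (by linarith)

/-- the event that the digit number `k` is at least `N` -/
def ev (k : ℕ) (N : ℝ) : Set ℝ := {x | x ∈ Ioo (0 : ℝ) 1 ∧ N ≤ (dig x k : ℝ)}

lemma measurable_ev (k : ℕ) (N : ℝ) : MeasurableSet (ev k N) := by
  refine measurableSet_Ioo.inter ?_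
  have h : Measurable fun x : ℝ => (dig x k : ℝ) :=
    (measurable_from_top (f := fun n : ℕ => (n : ℝ))).comp
      ((measurable_pi_apply k).comp measurable_dig)
  exact measurableSet_le measurable_const h

lemma nu_ev (k : ℕ) {N : ℝ} (hN : 0 < N) : nu (ev k N) ≤ ENNReal.ofReal (1 / N) := by
  induction k with
  | zero =>
    have h1 : ev 0 N ⊆ Ioc 0 (1 / N) := by
      rintro x ⟨⟨hx0, hx1⟩, hx2⟩
      refine ⟨hx0, ?_⟩
      have h2 : (dig x 0 : ℝ) ≤ x⁻¹ := by
        unfold dig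
        exact Nat.floor_le (by simpa using hx0.le)
      have h3 : N ≤ x⁻¹ := hx2.trans h2
      rw [le_div_iff₀ hN]
      have := mul_le_mul_of_nonneg_left h3 hx0.le
      rwa [mul_inv_cancel₀ hx0.ne'] at this
    calc nu (ev 0 N) ≤ nu (Ioc 0 (1 / N)) := nu_mono h1
      _ ≤ ∫⁻ _ in Ioc (0 : ℝ) (1 / N), 1 := by
          unfold nu
          refine setLIntegral_mono' measurableSet_Ioc fun x hx => ?_
          rw [← ENNReal.ofReal_one]
          refine ENNReal.ofReal_le_ofReal ?_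
          have : (0 : ℝ) < 1 + x := by linarith [hx.1]
          rw [div_le_one this]; linarith [hx.1]
      _ = ENNReal.ofReal (1 / N) := by
          rw [lintegral_one, Measure.restrict_apply_univ, Real.volume_Ioc, sub_zero]
  | succ k ih =>
    have h1 : ev (k + 1) N ⊆ {x | x ∈ Ioo (0 : ℝ) 1 ∧ gauss x ∈ ev k N} := by
      rintro x ⟨hx, hx2⟩
      refine ⟨hx, ?_, ?_⟩
      · refine ⟨lt_of_le_of_ne (Int.fract_nonneg _) ?_, Int.fract_lt_one _⟩
        intro h
        rw [dig_succ, show gauss x = 0 from h.symm, dig_zero] at hx2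
        simp at hx2
        linarith
      · rw [← dig_succ]; exact hx2
    exact (nu_mono h1).trans ((nu_preimage (measurable_ev k N) fun x hx => hx.1).trans ih)

lemma volume_ev (k : ℕ) {N : ℝ} (hN : 0 < N) : volume (ev k N) ≤ ENNReal.ofReal (2 / N) := by
  have h1 : volume (ev k N) ≤ 2 * nu (ev k N) := by
    unfold nu
    rw [← lintegral_const_mul' _ _ (by norm_num), ← setLIntegral_one]
    refine setLIntegral_mono' (measurable_ev k N) fun x hx => ?_
    have h2 : (2 : ENNReal) = ENNReal.ofReal 2 := by simp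
    rw [h2, ← ENNReal.ofReal_mul (by norm_num), ← ENNReal.ofReal_one]
    refine ENNReal.ofReal_le_ofReal ?_
    have h3 : (0 : ℝ) < 1 + x := by linarith [hx.1.1]
    rw [mul_one_div, le_div_iff₀ h3]
    linarith [hx.1.2]
  refine h1.trans ?_
  have h2 : (2 : ENNReal) = ENNReal.ofReal 2 := by simp
  calc 2 * nu (ev k N) ≤ 2 * ENNReal.ofReal (1 / N) := by gcongr; exact nu_ev k hN
    _ = ENNReal.ofReal (2 / N) := by
        rw [h2, ← ENNReal.ofReal_mul (by norm_num), mul_one_div]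

theorem growth : T_GROWTH := by
  have hsum : ∑' k : ℕ, (volume.restrict (Ioo (0 : ℝ) 1)) (ev k (((k : ℝ) + 1) ^ 2)) ≠ ⊤ := by
    have h1 : ∀ k : ℕ, (volume.restrict (Ioo (0 : ℝ) 1)) (ev k (((k : ℝ) + 1) ^ 2)) ≤
        ENNReal.ofReal (2 / ((k : ℝ) + 1) ^ 2) := fun k =>
      (Measure.restrict_apply_le _ _).trans (volume_ev k (by positivity))
    refine ne_top_of_le_ne_top ?_ (ENNReal.tsum_le_tsum h1)
    have h2 : Summable fun k : ℕ => 2 / ((k : ℝ) + 1) ^ 2 := by
      have h3 : Summable fun k : ℕ => (1 : ℝ) / ((k : ℝ)) ^ 2 :=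
        Real.summable_one_div_nat_pow.2 (by norm_num)
      have h4 := ((summable_nat_add_iff 1).2 h3).mul_left 2
      refine h4.congr fun k => ?_
      push_cast
      rw [mul_one_div]
    exact h2.tsum_ofReal_ne_top
  have hbc := ae_eventually_notMem hsum
  filter_upwards [hbc, ae_restrict_mem measurableSet_Ioo] with α h1 h2
  obtain ⟨K, hK⟩ := eventually_atTop.1 h1
  have hb : ∀ k, K ≤ k → (dig α k : ℝ) ≤ ((k : ℝ) + 1) ^ 2 := by
    intro k hk
    have h3 := hK k hk
    by_contra hcon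
    exact h3 ⟨h2, (not_le.1 hcon).le⟩
  refine ⟨1 + ∑ k ∈ Finset.range K, (dig α k : ℝ), fun k => ?_⟩
  have hS : 0 ≤ ∑ k ∈ Finset.range K, (dig α k : ℝ) :=
    Finset.sum_nonneg fun _ _ => Nat.cast_nonneg _
  have hk1 : (1 : ℝ) ≤ ((k : ℝ) + 1) ^ 2 := by
    have : (0 : ℝ) ≤ k := Nat.cast_nonneg k
    nlinarith
  rcases Nat.lt_or_ge k K with hk | hk
  · have h3 : (dig α k : ℝ) ≤ ∑ k ∈ Finset.range K, (dig α k : ℝ) :=
      Finset.single_le_sum (f := fun k => (dig α k : ℝ)) (fun _ _ => Nat.cast_nonneg _)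
        (Finset.mem_range.2 hk)
    nlinarith
  · have := hb k hk
    nlinarith

end H31.ST.H34

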